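import Pool.Agent.Q207.BrwA

set_option autoImplicit false

open MeasureTheory ProbabilityTheory Set Filter
open scoped ENNReal Topology Pointwise
open Pool.Agent.Q207.Brw

namespace Pool.Agent.Results.MP_1cd8c4_pr.EqualShapesNoCoexistence

/-- A reproduction law `(μ, ν)` on `ℤ^d`: `μ` is the law of the number of children, on
`{1, 2, …}` with mean `> 1`; `ν` is the law of the displacements; its support `K` is finite and
contains the `2d` nearest neighbours of the origin. -/
structure Law (d : ℕ) where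
  μ : PMF ℕ
  ν : PMF (Fin d → ℤ)
  zero : μ 0 = 0
  mean : 1 < ∑' k : ℕ, (k : ℝ≥0∞) * μ k
  finite : ν.support.Finite
  nn : ∀ i : Fin d, Pi.single i 1 ∈ ν.support ∧ -Pi.single i 1 ∈ ν.support

/-- All the draws of one branching random walk. An individual is a list of natural numbers: `[]` is
the initial particle and `i :: v` is child number `i` of `v`. The draw of `v` is the pair (number of
children of `v`, displacement of `v` from its parent). -/
abbrev Draws (d : ℕ) := List ℕ → ℕ × (Fin d → ℤ)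

/-- The law of the draws: independent over the individuals, each one `μ ⊗ ν`. -/
noncomputable def drawMeasure {d : ℕ} (R : Law d) : Measure (Draws d) :=
  Measure.infinitePi fun _ => R.μ.toMeasure.prod R.ν.toMeasure

/-- `v` is born: it belongs to the tree of descendants of the initial particle. -/
def Born {d : ℕ} (ω : Draws d) : List ℕ → Prop
  | [] => True
  | i :: v => Born ω v ∧ i < (ω v).1

/-- Position of `v` when the initial particle sits at `x₀` (`v` lives at time `v.length`). -/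
def pos {d : ℕ} (x₀ : Fin d → ℤ) (ω : Draws d) : List ℕ → Fin d → ℤ
  | [] => x₀
  | i :: v => pos x₀ ω v + (ω (i :: v)).2

/-- `D(n)`: the sites that have received a particle by time `n` (one initial particle at `0`). -/
def D {d : ℕ} (ω : Draws d) (n : ℕ) : Set (Fin d → ℤ) :=
  {x | ∃ v, Born ω v ∧ v.length ≤ n ∧ pos 0 ω v = x}

/-- `D̄(n)`: the union of the cubes `x + (-1/2, 1/2]^d`, `x ∈ D(n)`. -/
def Dbar {d : ℕ} (ω : Draws d) (n : ℕ) : Set (Fin d → ℝ) :=
  {y | ∃ x ∈ D ω n, ∀ i, (x i : ℝ) - 1 / 2 < y i ∧ y i ≤ (x i : ℝ) + 1 / 2}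

/-- `A` is the asymptotic shape of the law `R`. -/
structure IsShape {d : ℕ} (R : Law d) (A : Set (Fin d → ℝ)) : Prop where
  convex : Convex ℝ A
  compact : IsCompact A
  interior : 0 ∈ interior A
  shape : ∀ᵐ ω ∂(drawMeasure R), ∀ ε : ℝ, 0 < ε → ε < 1 → ∀ᶠ n : ℕ in atTop,
    (1 - ε) • A ⊆ (n : ℝ)⁻¹ • Dbar ω n ∧ (n : ℝ)⁻¹ • Dbar ω n ⊆ (1 + ε) • A

/-- The time at which the site `x` is first reached by a walk started at `x₀`. -/
noncomputable def arrival {d : ℕ} (x₀ : Fin d → ℤ) (ω : Draws d) (x : Fin d → ℤ) : ℕ∞ :=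
  ⨅ v : {v : List ℕ // Born ω v ∧ pos x₀ ω v = x}, ((v : List ℕ).length : ℕ∞)

/-- The sites coloured red. The red particle starts at `0` with draws `ω.1`, the blue one at
`e₁` with draws `ω.2`; a site reached first by red is red, and a site reached by both colours
simultaneously is red if the tie-breaking rule `tie` says so. -/
def redSites {d : ℕ} [NeZero d] (tie : (Fin d → ℤ) → Bool) (ω : Draws d × Draws d) :
    Set (Fin d → ℤ) :=
  {x | arrival 0 ω.1 x < arrival (Pi.single 0 1) ω.2 x ∨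
    (arrival 0 ω.1 x = arrival (Pi.single 0 1) ω.2 x ∧ arrival 0 ω.1 x ≠ ⊤ ∧ tie x = true)}

/-- The sites coloured blue. -/
def blueSites {d : ℕ} [NeZero d] (tie : (Fin d → ℤ) → Bool) (ω : Draws d × Draws d) :
    Set (Fin d → ℤ) :=
  {x | arrival (Pi.single 0 1) ω.2 x < arrival 0 ω.1 x ∨
    (arrival (Pi.single 0 1) ω.2 x = arrival 0 ω.1 x ∧ arrival (Pi.single 0 1) ω.2 x ≠ ⊤ ∧
      tie x = false)}

/-- The law `ℙ₀` of the two-type process at `p = 0`: two independent branching random walks. -/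
noncomputable def P₀ {d : ℕ} (Rr Rb : Law d) : Measure (Draws d × Draws d) :=
  (drawMeasure Rr).prod (drawMeasure Rb)

/-! ### Deterministic part -/

section deterministic

variable {ω : Draws 1} {m : ℕ}

/-- the bit telling whether the step goes in direction `σ` -/
def bit (σ : ℤ) (e : ℕ × (Fin 1 → ℤ)) : Bool := decide (e.2 0 = σ)

/-- good environments -/
structure Good (m : ℕ) (ω : Draws 1) : Prop where
  num : ∀ v, (ω v).1 = m
  step : ∀ v, (ω v).2 0 = 1 ∨ (ω v).2 0 = -1

theorem Good.wrong (h : Good m ω) {σ : ℤ} (hσ : σ = 1 ∨ σ = -1) (v : List ℕ)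
    (hb : bit σ (ω v) = false) : (ω v).2 0 = -σ := by
  unfold bit at hb
  rw [decide_eq_false_iff_not] at hb
  rcases h.step v with h | h <;> rcases hσ with rfl | rfl <;> omega

theorem right {σ : ℤ} (v : List ℕ) (hb : bit σ (ω v) = true) : (ω v).2 0 = σ := by
  unfold bit at hb
  exact of_decide_eq_true hb

theorem pos_cons (x₀ : Fin 1 → ℤ) (i : ℕ) (v : List ℕ) :
    pos x₀ ω (i :: v) 0 = pos x₀ ω v 0 + (ω (i :: v)).2 0 := rfl

theorem Good.born_iff (h : Good m ω) (v : List ℕ) : Born ω v ↔ ∀ i ∈ v, i < m := by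
  induction v with
  | nil => simp [Born]
  | cons i v ih =>
    simp only [Born, h.num v, ih, List.mem_cons, forall_eq_or_imp]
    tauto

theorem Good.bound (h : Good m ω) {σ : ℤ} (hσ : σ = 1 ∨ σ = -1) (x₀ : Fin 1 → ℤ) (v : List ℕ) :
    σ * pos x₀ ω v 0 ≤ σ * x₀ 0 + v.length := by
  induction v with
  | nil => simp [pos]
  | cons i v ih =>
    rw [pos_cons, mul_add, List.length_cons]
    push_cast
    rcases h.step (i :: v) with h1 | h1 <;> rw [h1] <;> rcases hσ with rfl | rfl <;> omega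

/-- number of wrong steps on the line of descent -/
def dn (σ : ℤ) (ω : Draws 1) : List ℕ → ℕ
  | [] => 0
  | i :: v => dn σ ω v + if bit σ (ω (i :: v)) = true then 0 else 1

theorem Good.pos_eq (h : Good m ω) {σ : ℤ} (hσ : σ = 1 ∨ σ = -1) (x₀ : Fin 1 → ℤ) (v : List ℕ) :
    σ * pos x₀ ω v 0 = σ * x₀ 0 + v.length - 2 * dn σ ω v := by
  have hσ2 : σ * σ = 1 := by rcases hσ with rfl | rfl <;> norm_num
  induction v with
  | nil => simp [pos, dn]
  | cons i v ih =>
    rw [pos_cons, mul_add, List.length_cons, ih]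
    simp only [dn]
    cases hb : bit σ (ω (i :: v)) with
    | true =>
      rw [right _ hb, hσ2, if_pos rfl]
      push_cast
      ring
    | false =>
      rw [h.wrong hσ _ hb, mul_neg, hσ2, if_neg (by simp)]
      push_cast
      ring

theorem Good.live_one (h : Good 3 ω) {σ : ℤ} (hσ : σ = 1 ∨ σ = -1) (x₀ : Fin 1 → ℤ) (n : ℕ) :
    ∀ (i : ℕ) (w : List ℕ), live 3 δ₁ (bit σ) n () (i :: w) ω → Born ω (i :: w) →
      ∃ u, u.length = w.length + 1 + n ∧ Born ω u ∧
        σ * pos x₀ ω u 0 = σ * pos x₀ ω w 0 + (n + 1) := by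
  have hσ2 : σ * σ = 1 := by rcases hσ with rfl | rfl <;> norm_num
  have step : ∀ (i : ℕ) (w : List ℕ), (∃ s', δ₁ () (bit σ (ω (i :: w))) = some s') →
      σ * pos x₀ ω (i :: w) 0 = σ * pos x₀ ω w 0 + 1 := by
    rintro i w ⟨s', hs⟩
    have hb : bit σ (ω (i :: w)) = true := by
      cases hb : bit σ (ω (i :: w)) with
      | true => rfl
      | false => rw [hb] at hs; simp [δ₁] at hs
    rw [pos_cons, right _ hb, mul_add, hσ2]
  induction n with
  | zero =>
    intro i w hl hborn
    refine ⟨i :: w, by simp, hborn, ?_⟩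
    rw [step i w hl]
    simp
  | succ n ih =>
    rintro i w ⟨s', hs, j, hj, hl⟩ hborn
    obtain ⟨u, hu1, hu2, hu3⟩ := ih j (i :: w) hl ⟨hborn, by rw [h.num]; exact hj⟩
    refine ⟨u, ?_, hu2, ?_⟩
    · rw [hu1, List.length_cons]; ring
    · rw [hu3, step i w ⟨s', hs⟩]
      push_cast
      ring

theorem Good.live_two (h : Good 2 ω) (σ : ℤ) (n : ℕ) :
    ∀ (C : ℕ) (v : List ℕ) (u : List ℕ), v <:+ u → u.length = v.length + n → v ≠ [] →
      Born ω u → dn σ ω u ≤ C + dn σ ω v.tail → live 2 δ₂ (bit σ) n C v ω := by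
  -- reading one mark
  have step : ∀ (C : ℕ) (v : List ℕ), v ≠ [] → dn σ ω v ≤ C + dn σ ω v.tail →
      ∃ C', δ₂ C (bit σ (ω v)) = some C' ∧ C' + dn σ ω v = C + dn σ ω v.tail := by
    intro C v hv hd
    cases v with
    | nil => exact absurd rfl hv
    | cons i w =>
      simp only [List.tail_cons] at hd ⊢
      cases hb : bit σ (ω (i :: w)) with
      | true =>
        refine ⟨C, by simp [δ₂], ?_⟩
        simp [dn, hb]
      | false =>
        simp [dn, hb] at hd
        cases C with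
        | zero => omega
        | succ C =>
          refine ⟨C, by simp [δ₂], ?_⟩
          simp [dn, hb]
          ring
  have mono : ∀ v u : List ℕ, v <:+ u → dn σ ω v ≤ dn σ ω u := by
    rintro v u ⟨q, rfl⟩
    induction q with
    | nil => simp
    | cons i q ih => simp only [List.cons_append, dn]; omega
  induction n with
  | zero =>
    intro C v u hs hl hv hborn hd
    have : v = u := hs.eq_of_length (by omega)
    subst this
    obtain ⟨C', h1, -⟩ := step C v hv hd
    exact ⟨C', h1⟩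
  | succ n ih =>
    intro C v u hs hl hv hborn hd
    obtain ⟨C', h1, h2⟩ := step C v hv ((mono v u hs).trans hd)
    obtain ⟨q, rfl⟩ := hs
    have hq : q ≠ [] := by
      rintro rfl
      simp at hl
    obtain ⟨q', j, hq'⟩ := (List.eq_nil_or_concat q).resolve_left hq
    rw [List.concat_eq_append] at hq'
    subst hq'
    have e : (q' ++ [j]) ++ v = q' ++ (j :: v) := by simp
    have hj : j < 2 := (h.born_iff _).1 hborn j (by simp)
    refine ⟨C', h1, j, hj, ih C' (j :: v) _ ?_ ?_ (by simp) hborn ?_⟩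
    · rw [e]; exact List.suffix_append _ _
    · rw [hl, List.length_cons]; ring
    · rw [List.tail_cons, h2]; exact hd

theorem Good.live_three (h : Good 2 ω) {σ : ℤ} (hσ : σ = 1 ∨ σ = -1) (x₀ : Fin 1 → ℤ) (L n : ℕ) :
    ∀ (t : ℕ) (c : Bool) (i : ℕ) (w : List ℕ), t ≤ L →
      live 2 (δ₃ L) (bit σ) n (t, c) (i :: w) ω → Born ω (i :: w) →
      ∃ u, u.length = w.length + 1 + n ∧ Born ω u ∧
        (σ * pos x₀ ω w 0 : ℝ) + (n + 1) - 2 * ((if c then 1 else 0) + (n + L - t) / (L + 1))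
          ≤ (σ * pos x₀ ω u 0 : ℝ) := by
  have hσ2 : σ * σ = 1 := by rcases hσ with rfl | rfl <;> norm_num
  -- reading one mark
  have step : ∀ (i : ℕ) (w : List ℕ),
      (σ * pos x₀ ω (i :: w) 0 : ℝ) = (σ * pos x₀ ω w 0 : ℝ) + 1
        - (if bit σ (ω (i :: w)) = true then 0 else 2) := by
    intro i w
    have e : σ * pos x₀ ω (i :: w) 0 = σ * pos x₀ ω w 0 + 1
        - (if bit σ (ω (i :: w)) = true then 0 else 2) := by
      rw [pos_cons, mul_add]
      cases hb : bit σ (ω (i :: w)) with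
      | true => rw [right _ hb, hσ2]; simp
      | false => rw [h.wrong hσ _ hb, mul_neg, hσ2]; simp; ring
    have e2 := congrArg (fun z : ℤ => (z : ℝ)) e
    push_cast at e2
    rw [e2]
  have hL : (0 : ℝ) < L + 1 := by positivity
  induction n with
  | zero =>
    intro t c i w ht hl hborn
    refine ⟨i :: w, by simp, hborn, ?_⟩
    rw [step]
    have htL : (0 : ℝ) ≤ ((0 : ℕ) + L - t) / (L + 1) := by
      have : (t : ℝ) ≤ L := by exact_mod_cast ht
      apply div_nonneg _ hL.le
      push_cast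
      linarith
    obtain ⟨s', hs⟩ := hl
    cases c with
    | true =>
      rw [if_pos (rfl : (true = true))]
      split_ifs with hb
      · push_cast at htL ⊢; linarith
      · push_cast at htL ⊢; linarith
    | false =>
      have hb : bit σ (ω (i :: w)) = true := by
        cases hb : bit σ (ω (i :: w)) with
        | true => rfl
        | false => rw [hb] at hs; cases t <;> simp [δ₃] at hs
      rw [if_pos hb]
      simp only [Bool.false_eq_true, if_false]
      push_cast at htL ⊢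
      linarith
  | succ n ih =>
    rintro t c i w ht ⟨s', hs, j, hj, hl⟩ hborn
    have hborn' : Born ω (j :: i :: w) := ⟨hborn, by rw [h.num]; exact hj⟩
    have hst := step i w
    cases t with
    | zero =>
      have hs' : s' = (L, true) ∧ (bit σ (ω (i :: w)) = true ∨ c = true) := by
        cases hb : bit σ (ω (i :: w)) <;> rw [hb] at hs <;> cases c <;> simp [δ₃] at hs <;>
          simp [← hs]
      obtain ⟨rfl, hc⟩ := hs'
      obtain ⟨u, hu1, hu2, hu3⟩ := ih L true j (i :: w) le_rfl hl hborn'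
      refine ⟨u, by rw [hu1, List.length_cons]; ring, hu2, le_trans ?_ hu3⟩
      rw [hst]
      simp only [if_true]
      have e : ((n + 1 : ℕ) + L - (0 : ℕ) : ℝ) / (L + 1) = 1 + (n + L - L) / (L + 1) := by
        push_cast
        field_simp
        ring
      rw [e]
      push_cast
      rcases hc with hc | hc
      · rw [if_pos hc]
        split_ifs <;> linarith
      · rw [if_pos hc]
        split_ifs <;> linarith
    | succ t =>
      have htL : t ≤ L := by omega
      have e : ((n + 1 : ℕ) + L - (t + 1 : ℕ) : ℝ) / (L + 1) = (n + L - t) / (L + 1) := by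
        push_cast
        ring
      rw [e]
      cases hb : bit σ (ω (i :: w)) with
      | true =>
        rw [hb] at hs
        rw [hb, if_pos rfl] at hst
        simp only [δ₃, Option.some.injEq] at hs
        subst hs
        obtain ⟨u, hu1, hu2, hu3⟩ := ih t c j (i :: w) htL hl hborn'
        refine ⟨u, by rw [hu1, List.length_cons]; ring, hu2, le_trans ?_ hu3⟩
        rw [hst]
        push_cast
        linarith
      | false =>
        rw [hb] at hs
        rw [hb, if_neg (by simp)] at hst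
        cases c with
        | false => simp [δ₃] at hs
        | true =>
          simp only [δ₃, Option.some.injEq] at hs
          subst hs
          obtain ⟨u, hu1, hu2, hu3⟩ := ih t false j (i :: w) htL hl hborn'
          refine ⟨u, by rw [hu1, List.length_cons]; ring, hu2, le_trans ?_ hu3⟩
          rw [hst]
          simp only [Bool.false_eq_true, if_false, if_true]
          push_cast
          linarith

/-- every site on the way has been visited -/
theorem Good.visit (h : Good m ω) {σ : ℤ} (hσ : σ = 1 ∨ σ = -1) (z : ℤ) (hz : 0 ≤ σ * z)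
    (u : List ℕ) (hu : Born ω u) (hzu : σ * z ≤ σ * pos 0 ω u 0) :
    ∃ w, Born ω w ∧ w.length ≤ u.length ∧ pos 0 ω w 0 = z := by
  induction u with
  | nil =>
    refine ⟨[], trivial, le_rfl, ?_⟩
    simp only [pos, Pi.zero_apply, mul_zero] at hzu ⊢
    rcases hσ with rfl | rfl <;> omega
  | cons i v ih =>
    by_cases hc : σ * z ≤ σ * pos 0 ω v 0
    · obtain ⟨w, h1, h2, h3⟩ := ih hu.1 hc
      exact ⟨w, h1, h2.trans (by simp), h3⟩
    · refine ⟨i :: v, hu, le_rfl, ?_⟩
      rw [pos_cons] at hzu ⊢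
      rcases h.step (i :: v) with h1 | h1 <;> rw [h1] at hzu ⊢ <;>
        rcases hσ with rfl | rfl <;> omega

end deterministic

/-- `d = 1` sites -/
theorem ext_one (x y : Fin 1 → ℤ) (h : x 0 = y 0) : x = y := by
  funext i
  rw [Subsingleton.elim i 0, h]

/-- a fast walk has the maximal shape -/
theorem shape_inclusions {m : ℕ} {ω : Draws 1} (h : Good m ω)
    (hf : ∀ σ : ℤ, (σ = 1 ∨ σ = -1) → ∀ ε : ℝ, 0 < ε → ∀ᶠ n : ℕ in atTop, ∃ u, Born ω u ∧
      u.length ≤ n ∧ (1 - ε) * n ≤ (σ * pos 0 ω u 0 : ℝ)) (ε : ℝ) (h0 : 0 < ε) (h1 : ε < 1) :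
    ∀ᶠ n : ℕ in atTop,
      (1 - ε) • Metric.closedBall (0 : Fin 1 → ℝ) 1 ⊆ (n : ℝ)⁻¹ • Dbar ω n ∧
        (n : ℝ)⁻¹ • Dbar ω n ⊆ (1 + ε) • Metric.closedBall (0 : Fin 1 → ℝ) 1 := by
  have hball : ∀ (r : ℝ), 0 < r → ∀ y : Fin 1 → ℝ,
      y ∈ r • Metric.closedBall (0 : Fin 1 → ℝ) 1 ↔ |y 0| ≤ r := by
    intro r hr y
    rw [smul_closedBall _ _ zero_le_one, smul_zero, mul_one, Real.norm_of_nonneg hr.le,
      mem_closedBall_zero_iff, pi_norm_le_iff_of_nonneg hr.le]
    constructor
    · intro h; exact h 0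
    · intro h i; rw [Subsingleton.elim i 0]; exact h
  have hN : ∀ᶠ n : ℕ in atTop, 1 / ε ≤ (n : ℝ) :=
    tendsto_natCast_atTop_atTop.eventually_ge_atTop (1 / ε)
  filter_upwards [hf 1 (Or.inl rfl) (ε / 2) (by positivity),
    hf (-1) (Or.inr rfl) (ε / 2) (by positivity), hN] with n hp hm hn
  have hn0 : (0 : ℝ) < n := lt_of_lt_of_le (by positivity) hn
  have hεn : 1 ≤ ε * n := by
    rw [div_le_iff₀ h0] at hn
    linarith
  constructor
  · intro y hy
    rw [hball _ (by linarith)] at hy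
    rw [mem_smul_set_iff_inv_smul_mem₀ (by positivity), inv_inv]
    set z : ℤ := ⌈(n : ℝ) * y 0 - 1 / 2⌉ with hz
    have hz1 : (n : ℝ) * y 0 - 1 / 2 ≤ z := Int.le_ceil _
    have hz2 : (z : ℝ) < (n : ℝ) * y 0 - 1 / 2 + 1 := Int.ceil_lt_add_one _
    have hy1 := abs_le.1 hy
    have hny : |(n : ℝ) * y 0| ≤ n * (1 - ε) := by
      rw [abs_mul, abs_of_pos hn0]
      exact mul_le_mul_of_nonneg_left hy hn0.le
    have hny' := abs_le.1 hny
    have hvis : ∃ w, Born ω w ∧ w.length ≤ n ∧ pos 0 ω w 0 = z := by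
      rcases le_total 0 z with hz0 | hz0
      · obtain ⟨u, hu1, hu2, hu3⟩ := hp
        have hle : (1 : ℤ) * z ≤ 1 * pos 0 ω u 0 := by
          have : ((1 * z : ℤ) : ℝ) ≤ ((1 * pos 0 ω u 0 : ℤ) : ℝ) := by
            push_cast
            push_cast at hu3
            nlinarith
          exact_mod_cast this
        obtain ⟨w, hw1, hw2, hw3⟩ := h.visit (Or.inl rfl) z (by omega) u hu1 hle
        exact ⟨w, hw1, hw2.trans hu2, hw3⟩
      · obtain ⟨u, hu1, hu2, hu3⟩ := hm
        have hle : (-1 : ℤ) * z ≤ -1 * pos 0 ω u 0 := by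
          have : ((-1 * z : ℤ) : ℝ) ≤ ((-1 * pos 0 ω u 0 : ℤ) : ℝ) := by
            push_cast
            push_cast at hu3
            nlinarith
          exact_mod_cast this
        obtain ⟨w, hw1, hw2, hw3⟩ := h.visit (Or.inr rfl) z (by omega) u hu1 hle
        exact ⟨w, hw1, hw2.trans hu2, hw3⟩
    obtain ⟨w, hw1, hw2, hw3⟩ := hvis
    refine ⟨fun _ => z, ⟨w, hw1, hw2, ext_one _ _ hw3⟩, fun i => ?_⟩
    rw [Subsingleton.elim i 0, Pi.smul_apply, smul_eq_mul]
    constructor <;> linarith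
  · intro y hy
    rw [mem_smul_set_iff_inv_smul_mem₀ (by positivity), inv_inv] at hy
    rw [hball _ (by linarith)]
    obtain ⟨x, ⟨v, hv1, hv2, rfl⟩, hx⟩ := hy
    have hx0 := hx 0
    rw [Pi.smul_apply, smul_eq_mul] at hx0
    have b1 := h.bound (Or.inl rfl) 0 v
    have b2 := h.bound (Or.inr rfl) 0 v
    simp only [Pi.zero_apply, mul_zero, zero_add, one_mul] at b1 b2
    have b1' : (pos 0 ω v 0 : ℝ) ≤ n := by
      have : pos 0 ω v 0 ≤ (n : ℤ) := b1.trans (by exact_mod_cast hv2)
      exact_mod_cast this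
    have b2' : -(n : ℝ) ≤ (pos 0 ω v 0 : ℝ) := by
      have : -(n : ℤ) ≤ pos 0 ω v 0 := by
        have : (v.length : ℤ) ≤ n := by exact_mod_cast hv2
        omega
      exact_mod_cast this
    have hc : |(n : ℝ) * y 0| ≤ n * (1 + ε) := by
      rw [abs_le]
      constructor <;> nlinarith
    rw [abs_mul, abs_of_pos hn0] at hc
    exact le_of_mul_le_mul_left hc hn0

/-! ### The two laws -/

/-- the sign as a displacement -/
def sgn (b : Bool) : Fin 1 → ℤ := fun _ => if b then 1 else -1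

/-- displacement `+1` or `-1` with probability `1/2` each -/
noncomputable def coin : PMF (Fin 1 → ℤ) := (PMF.uniformOfFintype Bool).map sgn

theorem coin_support : coin.support = {sgn true, sgn false} := by
  unfold coin
  rw [PMF.support_map, PMF.support_uniformOfFintype]
  ext x
  simp [eq_comm, or_comm]

/-- every individual has exactly `m` children, displacements are fair signs -/
noncomputable def law (m : ℕ) (hm : 2 ≤ m) : Law 1 where
  μ := PMF.pure m
  ν := coin
  zero := by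
    rw [PMF.pure_apply, if_neg]
    omega
  mean := by
    rw [tsum_eq_single m]
    · rw [PMF.pure_apply_self, mul_one]
      exact_mod_cast hm
    · intro k hk
      rw [PMF.pure_apply_of_ne _ _ hk, mul_zero]
  finite := by
    rw [coin_support]
    exact Set.toFinite _
  nn := by
    intro i
    rw [Subsingleton.elim i 0, coin_support]
    constructor
    · left
      exact ext_one _ _ (by simp [sgn])
    · right
      exact ext_one _ _ (by simp [sgn])

/-- the law of one draw -/
noncomputable def kap (m : ℕ) : Measure (ℕ × (Fin 1 → ℤ)) :=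
  (PMF.pure m).toMeasure.prod coin.toMeasure

instance (m : ℕ) : IsProbabilityMeasure (kap m) := by unfold kap; infer_instance

theorem drawMeasure_law (m : ℕ) (hm : 2 ≤ m) : drawMeasure (law m hm) = PP (kap m) := rfl

theorem coin_apply {s : Set (Fin 1 → ℤ)} (hs : MeasurableSet s) (t : Set Bool)
    (h : sgn ⁻¹' s = t) : coin.toMeasure s = (PMF.uniformOfFintype Bool).toMeasure t := by
  unfold coin
  rw [PMF.toMeasure_map_apply _ _ _ (measurable_of_finite sgn) hs, h]

theorem bit_measurable (σ : ℤ) : Measurable (bit σ) := by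
  have h1 : Measurable fun e : ℕ × (Fin 1 → ℤ) => e.2 0 :=
    (measurable_pi_apply 0).comp measurable_snd
  have h2 : Measurable fun z : ℤ => decide (z = σ) := measurable_from_top
  exact h2.comp h1

theorem uniform_bool (t : Set Bool) [Fintype t] :
    (PMF.uniformOfFintype Bool).toMeasure t = (Fintype.card t : ℝ≥0∞) / 2 := by
  rw [PMF.toMeasure_uniformOfFintype_apply _ (Set.toFinite _).measurableSet]
  simp

theorem kap_bit (m : ℕ) {σ : ℤ} (hσ : σ = 1 ∨ σ = -1) (β : Bool) :
    (kap m).real (bit σ ⁻¹' {β}) = 1 / 2 := by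
  have e : bit σ ⁻¹' {β} = univ ×ˢ {y : Fin 1 → ℤ | decide (y 0 = σ) = β} := by
    ext x
    simp [bit]
  have hm : MeasurableSet {y : Fin 1 → ℤ | decide (y 0 = σ) = β} := by
    have h2 : Measurable fun y : Fin 1 → ℤ => decide (y 0 = σ) :=
      (measurable_from_top (f := fun z : ℤ => decide (z = σ))).comp (measurable_pi_apply 0)
    exact h2 (measurableSet_singleton β)
  have h3 : coin.toMeasure {y : Fin 1 → ℤ | decide (y 0 = σ) = β} = 1 / 2 := by
    rcases hσ with rfl | rfl
    · rw [coin_apply hm {β}, uniform_bool]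
      · simp
      · ext b; cases b <;> cases β <;> simp [sgn]
    · rw [coin_apply hm {!β}, uniform_bool]
      · simp
      · ext b; cases b <;> cases β <;> simp [sgn]
  simp only [Measure.real, kap]
  rw [e, Measure.prod_prod, h3, measure_univ, one_mul]
  simp

theorem good_ae (m : ℕ) : ∀ᵐ ω ∂(PP (kap m)), Good m ω := by
  have h1 : ∀ᵐ ω ∂(PP (kap m)), ∀ v, ω v ∈ {m} ×ˢ {y : Fin 1 → ℤ | y 0 = 1 ∨ y 0 = -1} := by
    rw [ae_all_iff]
    intro v
    have hm : MeasurableSet {y : Fin 1 → ℤ | y 0 = 1 ∨ y 0 = -1} := by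
      have h2 : MeasurableSet {z : ℤ | z = 1 ∨ z = -1} := MeasurableSpace.measurableSet_top
      have h3 : Measurable fun y : Fin 1 → ℤ => y 0 := measurable_pi_apply 0
      exact h3 h2
    have hs : MeasurableSet (({m} : Set ℕ) ×ˢ {y : Fin 1 → ℤ | y 0 = 1 ∨ y 0 = -1}) :=
      (measurableSet_singleton m).prod hm
    have h3 : coin.toMeasure {y : Fin 1 → ℤ | y 0 = 1 ∨ y 0 = -1} = 1 := by
      rw [coin_apply hm univ, uniform_bool]
      · simp [ENNReal.div_self]
      · ext b; cases b <;> simp [sgn]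
    have h4 : (PMF.pure m).toMeasure {m} = 1 := by
      rw [PMF.toMeasure_pure, Measure.dirac_apply]
      simp
    have h5 := real_coord (kap m) v hs
    have h6 : (kap m).real (({m} : Set ℕ) ×ˢ {y : Fin 1 → ℤ | y 0 = 1 ∨ y 0 = -1}) = 1 := by
      simp only [Measure.real, kap]
      rw [Measure.prod_prod, h3, h4]
      simp
    rw [h6] at h5
    have hs' : MeasurableSet {ω : Draws 1 | ω v ∈ ({m} : Set ℕ) ×ˢ
        {y : Fin 1 → ℤ | y 0 = 1 ∨ y 0 = -1}} := (measurable_pi_apply v) hs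
    rw [ae_iff]
    have h7 := probReal_compl_eq_one_sub (μ := PP (kap m)) hs'
    rw [h5, sub_self, measureReal_eq_zero_iff] at h7
    exact h7
  filter_upwards [h1] with ω hω
  exact ⟨fun v => (hω v).1, fun v => (hω v).2⟩

theorem born_spine {m : ℕ} (hm : 2 ≤ m) {ω : Draws 1} (h : Good m ω) (k : ℕ) :
    Born ω (1 :: List.replicate k 0) := by
  rw [h.born_iff]
  intro i hi
  rcases List.mem_cons.1 hi with rfl | hi
  · omega
  · have := List.eq_of_mem_replicate hi
    omega

/-- three children: almost surely some line of descent makes only finitely many wrong steps -/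
theorem super_ae {σ : ℤ} (hσ : σ = 1 ∨ σ = -1) : ∀ᵐ ω ∂(PP (kap 3)), ∃ k : ℕ, ∀ n : ℕ, ∃ u,
    u.length = k + 1 + n ∧ Born ω u ∧
      σ * pos 0 ω u 0 = σ * pos 0 ω (List.replicate k 0) 0 + (n + 1) := by
  filter_upwards [good_ae 3, exists_surv 3 δ₁ (bit σ) (bit_measurable σ) (kap 3)
    (kap_bit 3 hσ true) (kap_bit 3 hσ false) () (1 / 4) (by norm_num) fun n => (aa_one n).1]
    with ω hg hs
  obtain ⟨k, hk⟩ := hs
  refine ⟨k, fun n => ?_⟩
  obtain ⟨u, h1, h2, h3⟩ := hg.live_one hσ 0 n 1 (List.replicate k 0) (hk n)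
    (born_spine (by norm_num) hg k)
  rw [List.length_replicate] at h1
  exact ⟨u, h1, h2, h3⟩

/-- two children: almost surely the number of wrong steps tends to infinity uniformly -/
theorem crit_ae {σ : ℤ} (hσ : σ = 1 ∨ σ = -1) : ∀ᵐ ω ∂(PP (kap 2)), ∀ C : ℕ, ∃ n : ℕ,
    ∀ u, Born ω u → n ≤ u.length → C < dn σ ω u := by
  have h1 : ∀ᵐ ω ∂(PP (kap 2)), ∀ C : ℕ, ∀ i : ℕ, ω ∉ surv 2 δ₂ (bit σ) C [i] := by
    rw [ae_all_iff]
    intro C
    rw [ae_all_iff]
    intro i
    rw [ae_iff]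
    have e : {ω | ¬ ω ∉ surv 2 δ₂ (bit σ) C [i]} = surv 2 δ₂ (bit σ) C [i] := by
      ext ω; simp
    rw [e, ← measureReal_eq_zero_iff]
    apply le_antisymm _ measureReal_nonneg
    refine ge_of_tendsto' (aa_two_tendsto C) fun n => ?_
    exact surv_le 2 δ₂ (bit σ) (bit_measurable σ) (kap 2)
      (kap_bit 2 hσ true) (kap_bit 2 hσ false) C [i] n
  filter_upwards [h1, good_ae 2] with ω hω hg C
  have h0 : ∀ i, ∃ n, ¬ live 2 δ₂ (bit σ) n C [i] ω := by
    intro i
    have := hω C i
    simp only [surv, mem_ofPred_eq, not_forall] at this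
    exact this
  obtain ⟨n0, hn0⟩ := h0 0
  obtain ⟨n1, hn1⟩ := h0 1
  refine ⟨max n0 n1 + 1, fun u hu hlen => ?_⟩
  by_contra hcon
  push Not at hcon
  have hne : u ≠ [] := by
    rintro rfl
    simp at hlen
  obtain ⟨q, j, hq⟩ := (List.eq_nil_or_concat u).resolve_left hne
  rw [List.concat_eq_append] at hq
  subst hq
  have hj : j < 2 := (hg.born_iff _).1 hu j (by simp)
  have hl : live 2 δ₂ (bit σ) q.length C [j] ω := by
    refine hg.live_two σ q.length C [j] (q ++ [j]) (List.suffix_append _ _) ?_ (by simp) hu ?_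
    · simp [add_comm]
    · simp only [List.tail_cons, dn, add_zero]; exact hcon
  have hanti : ∀ a b : ℕ, a ≤ b → live 2 δ₂ (bit σ) b C [j] ω → live 2 δ₂ (bit σ) a C [j] ω := by
    intro a b hab
    induction hab with
    | refl => exact id
    | step _ ih => exact fun h => ih (live_anti 2 δ₂ (bit σ) _ C [j] ω h)
  rw [List.length_append, List.length_singleton] at hlen
  have hj' : j = 0 ∨ j = 1 := by omega
  rcases hj' with rfl | rfl
  · exact hn0 (hanti n0 q.length (by omega) hl)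
  · exact hn1 (hanti n1 q.length (by omega) hl)

theorem spine_ge {m : ℕ} {ω : Draws 1} (h : Good m ω) {σ : ℤ} (hσ : σ = 1 ∨ σ = -1) (k : ℕ) :
    -(k : ℤ) ≤ σ * pos 0 ω (List.replicate k 0) 0 := by
  have := h.bound (σ := -σ) (by rcases hσ with rfl | rfl <;> simp) 0 (List.replicate k 0)
  simp only [List.length_replicate, Pi.zero_apply, mul_zero, zero_add, neg_mul] at this
  linarith

/-- three children: the walk is fast -/
theorem fast_three {ω : Draws 1} (h : Good 3 ω) {σ : ℤ} (hσ : σ = 1 ∨ σ = -1)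
    (hs : ∃ k : ℕ, ∀ n : ℕ, ∃ u, u.length = k + 1 + n ∧ Born ω u ∧
      σ * pos 0 ω u 0 = σ * pos 0 ω (List.replicate k 0) 0 + (n + 1)) (ε : ℝ) (hε : 0 < ε) :
    ∀ᶠ n : ℕ in atTop, ∃ u, Born ω u ∧ u.length ≤ n ∧ (1 - ε) * n ≤ (σ * pos 0 ω u 0 : ℝ) := by
  obtain ⟨k, hk⟩ := hs
  filter_upwards [tendsto_natCast_atTop_atTop.eventually_ge_atTop ((2 * k : ℝ) / ε),
    eventually_ge_atTop (k + 1)] with n hn hn2
  obtain ⟨u, h1, h2, h3⟩ := hk (n - (k + 1))
  refine ⟨u, h2, by omega, ?_⟩
  have hk0 := spine_ge h hσ k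
  have e : ((n - (k + 1) : ℕ) : ℤ) = n - (k + 1) := by omega
  rw [e] at h3
  have h4 : (n : ℤ) - 2 * k ≤ σ * pos 0 ω u 0 := by linarith
  have h5 : (n : ℝ) - 2 * k ≤ (σ * pos 0 ω u 0 : ℝ) := by exact_mod_cast h4
  rw [div_le_iff₀ hε] at hn
  linarith

/-- two children: the walk is fast as well -/
theorem fast_two {ω : Draws 1} (h : Good 2 ω) {σ : ℤ} (hσ : σ = 1 ∨ σ = -1)
    (hs : ∀ L : ℕ, 1 ≤ L → ∃ k : ℕ, ∀ n, live 2 (δ₃ L) (bit σ) n (L, true)
      (1 :: List.replicate k 0) ω) (ε : ℝ) (hε : 0 < ε) :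
    ∀ᶠ n : ℕ in atTop, ∃ u, Born ω u ∧ u.length ≤ n ∧ (1 - ε) * n ≤ (σ * pos 0 ω u 0 : ℝ) := by
  obtain ⟨L, hL⟩ := exists_nat_gt (max 1 (4 / ε))
  have hL1 : 1 ≤ L := by
    have : (1 : ℝ) < L := lt_of_le_of_lt (le_max_left _ _) hL
    exact_mod_cast this.le
  have hL2 : 4 / ε < L := lt_of_le_of_lt (le_max_right _ _) hL
  obtain ⟨k, hk⟩ := hs L hL1
  filter_upwards [tendsto_natCast_atTop_atTop.eventually_ge_atTop ((2 * (2 * k + 2) : ℝ) / ε),
    eventually_ge_atTop (k + 1)] with n hn hn2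
  obtain ⟨u, h1, h2, h3⟩ := h.live_three hσ 0 L (n - (k + 1)) L true 1 (List.replicate k 0) le_rfl
    (hk _) (born_spine le_rfl h k)
  rw [List.length_replicate] at h1
  refine ⟨u, h2, by omega, ?_⟩
  have hk0 := spine_ge h hσ k
  have hk0' : -(k : ℝ) ≤ (σ * pos 0 ω (List.replicate k 0) 0 : ℝ) := by exact_mod_cast hk0
  have e : ((n - (k + 1) : ℕ) : ℝ) = n - (k + 1) := by
    rw [Nat.cast_sub hn2]; push_cast; ring
  rw [e] at h3
  simp only [if_true] at h3
  have hLp : (0 : ℝ) < L + 1 := by positivity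
  have h6 : ((n : ℝ) - (k + 1) + L - L) / (L + 1) ≤ ε / 4 * n := by
    rw [div_le_iff₀ hLp]
    have h7 : 1 ≤ ε / 4 * (L + 1) := by
      rw [div_lt_iff₀ hε] at hL2
      nlinarith
    have hn0 : (0 : ℝ) ≤ n := by positivity
    have hk' : (0 : ℝ) ≤ k := by positivity
    nlinarith
  rw [div_le_iff₀ hε] at hn
  linarith

theorem shape_three : IsShape (law 3 (by norm_num)) (Metric.closedBall 0 1) where
  convex := convex_closedBall _ _
  compact := isCompact_closedBall _ _
  interior := by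
    apply interior_mono Metric.ball_subset_closedBall
    rw [Metric.isOpen_ball.interior_eq]
    exact Metric.mem_ball_self one_pos
  shape := by
    rw [drawMeasure_law]
    filter_upwards [good_ae 3, super_ae (Or.inl rfl), super_ae (Or.inr rfl)] with ω hg h1 h2 ε h0 h1'
    refine shape_inclusions hg ?_ ε h0 h1'
    rintro σ hσ δ hδ
    rcases hσ with rfl | rfl
    · exact fast_three hg (Or.inl rfl) h1 δ hδ
    · exact fast_three hg (Or.inr rfl) h2 δ hδ

theorem shape_two : IsShape (law 2 le_rfl) (Metric.closedBall 0 1) where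
  convex := convex_closedBall _ _
  compact := isCompact_closedBall _ _
  interior := by
    apply interior_mono Metric.ball_subset_closedBall
    rw [Metric.isOpen_ball.interior_eq]
    exact Metric.mem_ball_self one_pos
  shape := by
    rw [drawMeasure_law]
    have key : ∀ σ : ℤ, (σ = 1 ∨ σ = -1) → ∀ᵐ ω ∂(PP (kap 2)), ∀ L : ℕ, 1 ≤ L → ∃ k : ℕ, ∀ n,
        live 2 (δ₃ L) (bit σ) n (L, true) (1 :: List.replicate k 0) ω := by
      intro σ hσ
      rw [ae_all_iff]
      intro L
      by_cases hL : 1 ≤ L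
      · filter_upwards [exists_surv 2 (δ₃ L) (bit σ) (bit_measurable σ) (kap 2)
          (kap_bit 2 hσ true) (kap_bit 2 hσ false) (L, true) (1 / (L + 1)) (by positivity)
          fun n => (aa_three L hL n L le_rfl true).1] with ω hω _
        exact hω
      · exact Eventually.of_forall fun ω h => absurd h hL
    filter_upwards [good_ae 2, key 1 (Or.inl rfl), key (-1) (Or.inr rfl)] with ω hg h1 h2 ε h0 h1'
    refine shape_inclusions hg ?_ ε h0 h1'
    rintro σ hσ δ hδ
    rcases hσ with rfl | rfl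
    · exact fast_two hg (Or.inl rfl) h1 δ hδ
    · exact fast_two hg (Or.inr rfl) h2 δ hδ

/-! ### Comparison of the two types -/

theorem arrival_le {d : ℕ} {x₀ : Fin d → ℤ} {ω : Draws d} {x : Fin d → ℤ} {v : List ℕ}
    (hv : Born ω v) (hx : pos x₀ ω v = x) : arrival x₀ ω x ≤ (v.length : ℕ∞) :=
  iInf_le (fun v : {v : List ℕ // Born ω v ∧ pos x₀ ω v = x} => ((v : List ℕ).length : ℕ∞))
    ⟨v, hv, hx⟩

theorem exists_of_arrival_le {d : ℕ} {x₀ : Fin d → ℤ} {ω : Draws d} {x : Fin d → ℤ} {n : ℕ}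
    (h : arrival x₀ ω x ≤ n) : ∃ v, Born ω v ∧ pos x₀ ω v = x ∧ v.length ≤ n := by
  by_contra hcon
  push Not at hcon
  have h2 : ((n + 1 : ℕ) : ℕ∞) ≤ arrival x₀ ω x := by
    refine le_iInf fun v => ?_
    have := hcon v.1 v.2.1 v.2.2
    exact_mod_cast this
  have h3 := h2.trans h
  have h4 : n + 1 ≤ n := by exact_mod_cast h3
  omega

/-- in direction `σ`: beyond a finite distance the red colour is strictly first -/
theorem eventually_red {ωr ωb : Draws 1} (hr : Good 3 ωr) (hb : Good 2 ωb) {σ : ℤ}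
    (hσ : σ = 1 ∨ σ = -1)
    (h1 : ∃ k : ℕ, ∀ n : ℕ, ∃ u, u.length = k + 1 + n ∧ Born ωr u ∧
      σ * pos 0 ωr u 0 = σ * pos 0 ωr (List.replicate k 0) 0 + (n + 1))
    (h2 : ∀ C : ℕ, ∃ n : ℕ, ∀ u, Born ωb u → n ≤ u.length → C < dn σ ωb u) :
    ∃ K : ℤ, ∀ x : Fin 1 → ℤ, K ≤ σ * x 0 →
      arrival 0 ωr x < arrival (Pi.single 0 1) ωb x := by
  obtain ⟨k, hk⟩ := h1
  obtain ⟨n₀, hn₀⟩ := h2 k
  have hσ2 : σ * σ = 1 := by rcases hσ with rfl | rfl <;> norm_num
  refine ⟨k + n₀ + 2, fun x hx => ?_⟩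
  have hsp := spine_ge hr hσ k
  have hsp2 := hr.bound hσ 0 (List.replicate k 0)
  simp only [List.length_replicate, Pi.zero_apply, mul_zero, zero_add] at hsp2
  -- red arrives by time `σ x + 2 k`
  obtain ⟨n, hn⟩ : ∃ n : ℕ, (n : ℤ) = σ * x 0 - σ * pos 0 ωr (List.replicate k 0) 0 - 1 := by
    refine ⟨(σ * x 0 - σ * pos 0 ωr (List.replicate k 0) 0 - 1).toNat, Int.toNat_of_nonneg ?_⟩
    omega
  obtain ⟨u, hu1, hu2, hu3⟩ := hk n
  have hux : pos 0 ωr u = x := by
    apply ext_one
    have h5 : σ * pos 0 ωr u 0 = σ * x 0 := by rw [hu3, hn]; ring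
    have h6 := congrArg (fun z => σ * z) h5
    simp only [← mul_assoc, hσ2, one_mul] at h6
    exact h6
  have hred := arrival_le hu2 hux
  by_contra hcon
  push Not at hcon
  obtain ⟨v, hv1, hv2, hv3⟩ := exists_of_arrival_le (hcon.trans hred)
  have hpe := hb.pos_eq hσ (Pi.single 0 1) v
  rw [hv2] at hpe
  simp only [Pi.single_eq_same, mul_one] at hpe
  have hlen : (u.length : ℤ) = k + 1 + n := by rw [hu1]; push_cast; ring
  have hσ1 : σ ≤ 1 ∧ -1 ≤ σ := by rcases hσ with rfl | rfl <;> norm_num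
  have hv3' : (v.length : ℤ) ≤ u.length := by exact_mod_cast hv3
  by_cases hc : n₀ ≤ v.length
  · have := hn₀ v hv1 hc
    omega
  · omega

theorem comparison : ∀ᵐ ω ∂(P₀ (law 3 (by norm_num)) (law 2 le_rfl)),
    ∃ K : ℤ, ∀ x : Fin 1 → ℤ, K ≤ |x 0| →
      arrival 0 ω.1 x < arrival (Pi.single 0 1) ω.2 x := by
  have hr : ∀ᵐ ω ∂(drawMeasure (law 3 (by norm_num))), Good 3 ω ∧ ∀ σ : ℤ, (σ = 1 ∨ σ = -1) →
      ∃ k : ℕ, ∀ n : ℕ, ∃ u, u.length = k + 1 + n ∧ Born ω u ∧
        σ * pos 0 ω u 0 = σ * pos 0 ω (List.replicate k 0) 0 + (n + 1) := by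
    rw [drawMeasure_law]
    filter_upwards [good_ae 3, super_ae (Or.inl rfl), super_ae (Or.inr rfl)] with ω hg h1 h2
    refine ⟨hg, ?_⟩
    rintro σ (rfl | rfl)
    · exact h1
    · exact h2
  have hb : ∀ᵐ ω ∂(drawMeasure (law 2 le_rfl)), Good 2 ω ∧ ∀ σ : ℤ, (σ = 1 ∨ σ = -1) →
      ∀ C : ℕ, ∃ n : ℕ, ∀ u, Born ω u → n ≤ u.length → C < dn σ ω u := by
    rw [drawMeasure_law]
    filter_upwards [good_ae 2, crit_ae (Or.inl rfl), crit_ae (Or.inr rfl)] with ω hg h1 h2
    refine ⟨hg, ?_⟩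
    rintro σ (rfl | rfl)
    · exact h1
    · exact h2
  have i1 : IsProbabilityMeasure (drawMeasure (law 3 (by norm_num))) := by
    rw [drawMeasure_law]; infer_instance
  have i2 : IsProbabilityMeasure (drawMeasure (law 2 le_rfl)) := by
    rw [drawMeasure_law]; infer_instance
  unfold P₀
  filter_upwards [Measure.quasiMeasurePreserving_fst.ae hr, Measure.quasiMeasurePreserving_snd.ae hb]
    with ω h1 h2
  obtain ⟨K1, hK1⟩ := eventually_red h1.1 h2.1 (Or.inl rfl) (h1.2 1 (Or.inl rfl))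
    (h2.2 1 (Or.inl rfl))
  obtain ⟨K2, hK2⟩ := eventually_red h1.1 h2.1 (Or.inr rfl) (h1.2 (-1) (Or.inr rfl))
    (h2.2 (-1) (Or.inr rfl))
  refine ⟨max K1 K2, fun x hx => ?_⟩
  rcases abs_cases (x 0) with ⟨ha, -⟩ | ⟨ha, -⟩
  · apply hK1
    rw [one_mul, ← ha]
    exact (le_max_left _ _).trans hx
  · apply hK2
    rw [neg_one_mul, ← ha]
    exact (le_max_right _ _).trans hx

/-- **Disproof of Q1** (for `d = 1`). There are two reproduction laws on `ℤ` with the same
asymptotic shape for which, whatever the tie-breaking rule, almost surely red colours infinitely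
many sites and blue only finitely many. In particular `ℙ₀(C) = 0`. -/
theorem result : ∃ (Rr Rb : Law 1) (A : Set (Fin 1 → ℝ)), IsShape Rr A ∧ IsShape Rb A ∧
    (∀ᵐ ω ∂(P₀ Rr Rb), ∀ tie : (Fin 1 → ℤ) → Bool,
      (redSites tie ω).Infinite ∧ (blueSites tie ω).Finite) ∧
    ∀ tie : Draws 1 × Draws 1 → (Fin 1 → ℤ) → Bool,
      P₀ Rr Rb {ω | (redSites (tie ω) ω).Infinite ∧ (blueSites (tie ω) ω).Infinite} = 0 := by
  have key : ∀ᵐ ω ∂(P₀ (law 3 (by norm_num)) (law 2 le_rfl)), ∀ tie : (Fin 1 → ℤ) → Bool,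
      (redSites tie ω).Infinite ∧ (blueSites tie ω).Finite := by
    filter_upwards [comparison] with ω hω tie
    obtain ⟨K, hK⟩ := hω
    constructor
    · have hsub : (fun n : ℕ => (fun _ => (n : ℤ) + |K| : Fin 1 → ℤ)) '' univ ⊆
          redSites tie ω := by
        rintro x ⟨n, -, rfl⟩
        left
        apply hK
        have h1 := le_abs_self K
        have h2 : (0 : ℤ) ≤ n := by positivity
        have h3 := abs_nonneg K
        rw [abs_of_nonneg (by linarith : (0 : ℤ) ≤ (n : ℤ) + |K|)]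
        linarith
      refine Set.Infinite.mono hsub (Set.Infinite.image ?_ Set.infinite_univ)
      intro a _ b _ hab
      have := congrFun hab 0
      simp only at this
      omega
    · have hsub : blueSites tie ω ⊆ (fun z : ℤ => (fun _ => z : Fin 1 → ℤ)) '' Set.Ioo (-K) K := by
        intro x hx
        have hx2 : |x 0| < K := by
          by_contra hc
          push Not at hc
          have h1 := hK x hc
          rcases hx with h2 | ⟨h2, -⟩
          · exact absurd (h1.trans h2) (lt_irrefl _)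
          · rw [h2] at h1
            exact lt_irrefl _ h1
        rw [abs_lt] at hx2
        exact ⟨x 0, hx2, ext_one _ _ rfl⟩
      exact ((Set.finite_Ioo _ _).image _).subset hsub
  refine ⟨law 3 (by norm_num), law 2 le_rfl, _, shape_three, shape_two, key, fun tie => ?_⟩
  rw [← nonpos_iff_eq_zero]
  refine (measure_mono ?_).trans (le_of_eq (ae_iff.1 key))
  rintro ω ⟨h1, h2⟩ hcon
  exact h2 (hcon (tie ω)).2

end Pool.Agent.Results.MP_1cd8c4_pr.EqualShapesNoCoexistence
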